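import Mathlib
import Pool.Agent.R234.Core.C

set_option autoImplicit false

open Set

namespace Pool.Agent.Results.MP_902c37_an.CoreShrinks

open Pool.Agent.R234.Core

/-- There are domains `ω ⊆ Ω` in `ℂ²` such that `ω` contains the core of `Ω`, the core of `Ω` is
not empty, and the core of `ω` is empty. -/
theorem result : ∃ Ω ω : Set (EuclideanSpace ℂ (Fin 2)),
    IsOpen Ω ∧ IsConnected Ω ∧ IsOpen ω ∧ IsConnected ω ∧
    core Ω ⊆ ω ∧ ω ⊆ Ω ∧ (core Ω).Nonempty ∧ core ω = ∅ := by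
  refine ⟨Om, bidisc, isOpen_Om, isConnected_Om, isOpen_bidisc, isConnected_bidisc, ?_,
    bidisc_subset, ?_, core_bidisc⟩
  · rw [core_Om]
    rintro z ⟨h1, h2⟩
    exact ⟨h1, by rw [h2, norm_zero]; norm_num⟩
  · rw [core_Om]
    exact ⟨0, by simp⟩

end Pool.Agent.Results.MP_902c37_an.CoreShrinks
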